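import Pool.Agent.Helper78.DT.Goals3

/-! Packet DT-TOB: dropping the unbalanced terms. -/

namespace Pool.Agent.Helper65.DT

open Pool.Agent.Helper78.DT
open scoped Classical

theorem first_sat {V : Type} (b : V → Bool) : ∀ f : DL V,
    ((∀ q : Tm V × Bool → Bool, ev (f.filter q) b = false) ∧ ev f b = false) ∨
    ∃ g ∈ f, Sat g.1 b ∧ ∀ q : Tm V × Bool → Bool, q g = true → ev (f.filter q) b = ev f b := by
  intro f
  induction f with
  | nil => left; simp [ev]
  | cons e f ih =>
    by_cases he : Sat e.1 b
    · right
      refine ⟨e, by simp, he, fun q hq => ?_⟩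
      rw [List.filter_cons_of_pos hq]
      simp [ev, he]
    · rcases ih with ⟨h1, h2⟩ | ⟨g, hg, hs, h⟩
      · left
        constructor
        · intro q
          by_cases hq : q e = true
          · rw [List.filter_cons_of_pos hq]
            simp [ev, he, h1 q]
          · rw [List.filter_cons_of_neg hq]
            exact h1 q
        · simp [ev, he, h2]
      · right
        refine ⟨g, List.mem_cons_of_mem _ hg, hs, fun q hq => ?_⟩
        by_cases hq' : q e = true
        · rw [List.filter_cons_of_pos hq']
          simp only [ev, he, if_false]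
          exact h q hq
        · rw [List.filter_cons_of_neg hq']
          simp only [ev, he, if_false]
          exact h q hq

theorem tob (hB : BalStmt) : TobStmt := by
  intro n P K t e W hP hK hKP hn f hf
  have hP0 : 0 < P := hP.pos
  have : Nonempty (Fin P) := ⟨⟨0, hP0⟩⟩
  set B : ℝ := (W : ℝ) ^ 2 * e / P + (W.choose (t + 1)) * 2 ^ (t + 1) / (K : ℝ) ^ t with hBdef
  have hB0 : 0 ≤ B := by positivity
  set D : (Fin (t + 2) → Fin P) → (Fin n → Bool) → ℝ := fun A b =>
    (if ev (f.filter (bal K t (pt P K t e (ext A)))) b = true then (1 : ℝ) else 0) -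
      (if ev f b = true then (1 : ℝ) else 0) with hD
  have e1 : pr (fun z : (Fin (t + 2) → Fin P) × (Fin n → Bool) =>
        ev (f.filter (bal K t (pt P K t e (ext z.1)))) z.2 = true) -
      pr (fun x => ev f x = true) = av fun b => av fun A => D A b := by
    have h1 : pr (fun z : (Fin (t + 2) → Fin P) × (Fin n → Bool) =>
        ev (f.filter (bal K t (pt P K t e (ext z.1)))) z.2 = true) =
        av fun b : Fin n → Bool => av fun A : Fin (t + 2) → Fin P =>
          if ev (f.filter (bal K t (pt P K t e (ext A)))) b = true then (1 : ℝ) else 0 := by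
      rw [pr_eq_av, av_prod]
      refine (av_comm (fun (A : Fin (t + 2) → Fin P) (b : Fin n → Bool) => _)).trans ?_
      refine av_congr fun b => av_congr fun A => ?_
      split_ifs <;> rfl
    have h2 : pr (fun x => ev f x = true) =
        av fun b : Fin n → Bool => av fun _ : Fin (t + 2) → Fin P =>
          if ev f b = true then (1 : ℝ) else 0 := by
      rw [pr_eq_av]
      refine av_congr fun b => ?_
      rw [av_const]
      split_ifs <;> rfl
    rw [h1, h2, ← av_sub]
    refine av_congr fun b => ?_
    rw [← av_sub]
  rw [e1]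
  refine (abs_av_le _).trans (av_le_of_le hB0 fun b => ?_)
  refine (abs_av_le _).trans ?_
  rcases first_sat b f with ⟨h1, h2⟩ | ⟨g, hg, hs, h⟩
  · refine av_le_of_le hB0 fun A => ?_
    simp only [hD, h1, h2]
    simpa using hB0
  · set U : Finset ℕ := g.1.image fun p => (p.1 : ℕ) with hU
    have hUlt : ∀ v ∈ U, v < 2 ^ e := by
      intro v hv
      rw [hU, Finset.mem_image] at hv
      obtain ⟨p, _, rfl⟩ := hv
      exact lt_of_lt_of_le p.1.2 hn
    have hUc : U.card ≤ W := Finset.card_image_le.trans (hf g hg)
    refine le_trans ?_ (hB P K t e W hP hK hKP U hUlt hUc)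
    rw [pr_eq_av]
    refine av_mono fun A => ?_
    by_cases hb : bal K t (pt P K t e (ext A)) g = true
    · have := h _ hb
      simp only [hD, this, sub_self, abs_zero]
      split_ifs <;> norm_num
    · have hex : ∃ j < K, t < (U.filter fun v => pt P K t e (ext A) v = j).card := by
        unfold bal at hb
        rw [decide_eq_true_iff] at hb
        push Not at hb
        obtain ⟨j, hj, hlt⟩ := hb
        refine ⟨j, hj, lt_of_lt_of_le hlt ?_⟩
        have hinj : Set.InjOn (fun p : Fin n × Bool => (p.1 : ℕ))
            (g.1.filter fun p => pt P K t e (ext A) p.1 = j : Finset (Fin n × Bool)) := by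
          intro p hp p' hp' hpp
          rw [Finset.mem_coe, Finset.mem_filter] at hp hp'
          have e1 : p.1 = p'.1 := Fin.ext hpp
          have e2 : p.2 = p'.2 := by rw [← hs p hp.1, ← hs p' hp'.1, e1]
          exact Prod.ext e1 e2
        rw [← Finset.card_image_of_injOn hinj]
        refine Finset.card_le_card fun v hv => ?_
        rw [Finset.mem_image] at hv
        obtain ⟨p, hp, rfl⟩ := hv
        rw [Finset.mem_filter] at hp ⊢
        exact ⟨Finset.mem_image_of_mem _ hp.1, hp.2⟩
      rw [if_pos hex]
      simp only [hD]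
      split_ifs <;> norm_num

end Pool.Agent.Helper65.DT
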